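import Pool.Agent.Thin.Compr

/-!
# MP_b345c4_lc: thin-HT implies `ACA₀` over `RCA₀`

Every model of `RCA₀` in which thin-HT holds satisfies arithmetical comprehension.

A model of `RCA₀` is given by a discretely ordered commutative ring `R`, whose non-negative
elements `NN R` are the numbers of the model, and by a collection `𝒮` of sets of numbers. The
formulas with parameters are represented by the relations on assignments they define.
-/

set_option autoImplicit false

namespace Pool.Agent.Results.MP_b345c4_lc.ThinHTImpliesACA

open Pool.Agent.Thin

/-- thin-HT implies arithmetical comprehension in every model of `RCA₀`. -/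
theorem result (R : Type) [CommRing R] [LinearOrder R] [IsStrictOrderedRing R]
    (𝒮 : Set (Set (NN R))) (h : RCA0 𝒮) (hT : ThinHT 𝒮) : ArithComp 𝒮 :=
  arithComp_of_thinHT h hT

end Pool.Agent.Results.MP_b345c4_lc.ThinHTImpliesACA
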